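import Pool.Agent.H77.VC.PartC
import Pool.Agent.H17.FM.Br

set_option autoImplicit false

/-!
# (I2) The set `E` from the chain rule weights
-/

namespace Pool.Agent.H77.VC

open Finset Real

variable {L : Type*} [Lattice L] [Fintype L]

open Classical in
theorem eset_of_classes [Nonempty L] {r : ℕ} {κ : Type*} (j g : Fin r → L) (hg : ∀ m, j m ≤ g m)
    (hinj : ∀ x y : L, (∀ m, x ⊓ j m = y ⊓ j m) → x = y)
    (cls : L → κ) (hcls : ∀ x y, cls x = cls y → ∀ m, (g m ≤ x ↔ g m ≤ y))
    (K : ℕ) (hK : ((univ : Finset L).image cls).card ≤ K) (e : ℝ) (he0 : 0 ≤ e)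
    (hu : ∀ m, (1 / 2 - e) * (Fintype.card L : ℝ) ≤ ((univ.filter fun y => g m ≤ y).card : ℝ))
    (hN2 : 2 ≤ Fintype.card L)
    (hη : 32 * (e + Real.log K / (2 * Real.log (Fintype.card L))) ≤ 1) :
    ∃ E : Finset L, (E.card : ℝ) ≤
        48 * (e + Real.log K / (2 * Real.log (Fintype.card L))) * (Fintype.card L : ℝ) ∧
      (Fintype.card L : ℝ) ^ 2 / 4 ≤ ((univ.filter fun p : L × L => p.1 ⊓ p.2 ∈ E).card : ℝ) := by
  obtain ⟨w, h0, h1, h2⟩ := Pool.Agent.H17.Br.exists_w j g hg hinj cls hcls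
  have hNpos : (0 : ℝ) < (Fintype.card L : ℝ) := by exact_mod_cast Fintype.card_pos
  have hlogN : 0 < Real.log (Fintype.card L : ℝ) :=
    Real.log_pos (by exact_mod_cast (show 1 < Fintype.card L by omega))
  refine eset (fun x m => w (cls x) m) (fun m y => g m ≤ y) (fun m x y => le_inf_iff)
    (Real.log (Fintype.card L)) (Real.log K) e hlogN ?_ he0 (fun x m => h0 _ m) ?_ ?_ h2 hu hη
  · exact Real.log_natCast_nonneg K
  · intro x
    rw [h1 x]
    refine Real.log_le_log ?_ (by exact_mod_cast Finset.card_le_univ _)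
    have : 0 < (univ.filter (fun y => cls y = cls x)).card :=
      Finset.card_pos.2 ⟨x, by simp⟩
    exact_mod_cast this
  · have h4 := Pool.Agent.H17.FM.sum_log_class (L := L)
      (τ := {s // s ∈ (univ : Finset L).image cls})
      (fun x => ⟨cls x, Finset.mem_image_of_mem _ (Finset.mem_univ x)⟩)
    rw [Fintype.card_coe] at h4
    have h5 : Real.log (((univ : Finset L).image cls).card : ℝ) ≤ Real.log K := by
      apply Real.log_le_log
      · have : 0 < ((univ : Finset L).image cls).card :=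
          Finset.card_pos.2 (Finset.univ_nonempty.image _)
        exact_mod_cast this
      · exact_mod_cast hK
    have h6 : ∑ x : L, ∑ m, w (cls x) m =
        ∑ x : L, Real.log (univ.filter (fun y => cls y = cls x)).card :=
      Finset.sum_congr rfl fun x _ => h1 x
    rw [h6]
    simp only [Subtype.mk.injEq] at h4
    refine le_trans ?_ h4
    exact mul_le_mul_of_nonneg_left (by linarith) hNpos.le

open Classical in
/-- The same for a finite set `M` of elements and a map `g`. -/
theorem eset_of_finset [Nonempty L] (M : Finset L) (g : L → L) (hg : ∀ m ∈ M, m ≤ g m)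
    (hinj : ∀ x y : L, (∀ m ∈ M, x ⊓ m = y ⊓ m) → x = y)
    (K : ℕ) (hK : ((univ : Finset L).image fun x => M.filter fun m => g m ≤ x).card ≤ K)
    (e : ℝ) (he0 : 0 ≤ e)
    (hu : ∀ m ∈ M, (1 / 2 - e) * (Fintype.card L : ℝ) ≤
      ((univ.filter fun y => g m ≤ y).card : ℝ))
    (hN2 : 2 ≤ Fintype.card L)
    (hη : 32 * (e + Real.log K / (2 * Real.log (Fintype.card L))) ≤ 1) :
    ∃ E : Finset L, (E.card : ℝ) ≤
        48 * (e + Real.log K / (2 * Real.log (Fintype.card L))) * (Fintype.card L : ℝ) ∧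
      (Fintype.card L : ℝ) ^ 2 / 4 ≤ ((univ.filter fun p : L × L => p.1 ⊓ p.2 ∈ E).card : ℝ) := by
  let j : Fin M.card → L := fun m => (M.equivFin.symm m : L)
  have hj : ∀ m, j m ∈ M := fun m => (M.equivFin.symm m).2
  have hjs : ∀ a ∈ M, ∃ m, j m = a := fun a ha => ⟨M.equivFin ⟨a, ha⟩, by simp [j]⟩
  refine eset_of_classes j (fun m => g (j m)) (fun m => hg _ (hj m)) ?_
    (fun x => M.filter fun m => g m ≤ x) ?_ K (by convert hK) e he0 (fun m => hu _ (hj m)) hN2 hη
  · intro x y h
    refine hinj x y fun m hm => ?_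
    obtain ⟨i, rfl⟩ := hjs m hm
    exact h i
  · intro x y h m
    have h1 : j m ∈ M.filter (fun m => g m ≤ x) ↔ j m ∈ M.filter (fun m => g m ≤ y) := by
      have h' : (M.filter fun m => g m ≤ x) = (M.filter fun m => g m ≤ y) := h
      rw [h']
    simpa [hj m] using h1

end Pool.Agent.H77.VC
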