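import Mathlib

set_option autoImplicit false

/-!
# Part (C): the meet of two random elements is not uniform
-/

namespace Pool.Agent.H77.VC

open Finset Real

/-- Gibbs. -/
lemma gibbs_aux {q r : ℝ} (hq : 0 ≤ q) (hr : 0 < r) :
    Real.negMulLog q ≤ - q * Real.log r + (r - q) := by
  rcases hq.eq_or_lt with h | h
  · subst h; simp [Real.negMulLog, hr.le]
  · have h1 := Real.log_le_sub_one_of_pos (show 0 < r / q by positivity)
    rw [Real.log_div hr.ne' h.ne'] at h1
    have h2 := mul_le_mul_of_nonneg_left h1 h.le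
    have h3 : q * (r / q - 1) = r - q := by field_simp
    rw [h3] at h2
    rw [Real.negMulLog]
    nlinarith

/-- Entropy bound from a small set of large measure. -/
lemma entropy_le {α : Type*} [Fintype α] [DecidableEq α] (q : α → ℝ) (hq : ∀ z, 0 ≤ q z)
    (hq1 : ∑ z, q z = 1) (E : Finset α) (hE : E.Nonempty) :
    ∑ z, Real.negMulLog (q z) ≤ Real.log 2 + Real.log (Fintype.card α) -
      (∑ z ∈ E, q z) * (Real.log (Fintype.card α) - Real.log E.card) := by
  have hα : (0 : ℝ) < Fintype.card α := by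
    obtain ⟨z, _⟩ := hE
    exact_mod_cast Fintype.card_pos_iff.2 ⟨z⟩
  have hEc : (0 : ℝ) < E.card := by exact_mod_cast hE.card_pos
  let r : α → ℝ := fun z => if z ∈ E then 1 / (2 * E.card) else 1 / (2 * Fintype.card α)
  have hr : ∀ z, 0 < r z := fun z => by
    simp only [r]; split_ifs <;> positivity
  have hrs : ∑ z, r z ≤ 1 := by
    have h1 : ∑ z, r z = ∑ z ∈ E, r z + ∑ z ∈ Eᶜ, r z := (Finset.sum_add_sum_compl E r).symm
    have h2 : ∑ z ∈ E, r z = 1 / 2 := by
      rw [Finset.sum_congr rfl (g := fun _ => (1 : ℝ) / (2 * E.card)) (fun z hz => by simp [r, hz])]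
      rw [Finset.sum_const, nsmul_eq_mul]; field_simp
    have h3 : ∑ z ∈ Eᶜ, r z ≤ 1 / 2 := by
      rw [Finset.sum_congr rfl (g := fun _ => (1 : ℝ) / (2 * Fintype.card α))
        (fun z hz => by simp [r, Finset.mem_compl.1 hz])]
      rw [Finset.sum_const, nsmul_eq_mul]
      have h4 : ((Eᶜ).card : ℝ) ≤ Fintype.card α := by exact_mod_cast Finset.card_le_univ _
      rw [mul_one_div, div_le_div_iff₀ (by positivity) (by norm_num)]
      linarith
    linarith
  have h1 : ∑ z, Real.negMulLog (q z) ≤ ∑ z, (- q z * Real.log (r z) + (r z - q z)) :=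
    Finset.sum_le_sum fun z _ => gibbs_aux (hq z) (hr z)
  rw [Finset.sum_add_distrib, Finset.sum_sub_distrib, hq1] at h1
  have h2 : ∑ z, - q z * Real.log (r z) = Real.log 2 + Real.log (Fintype.card α) -
      (∑ z ∈ E, q z) * (Real.log (Fintype.card α) - Real.log E.card) := by
    have h3 : ∑ z, - q z * Real.log (r z) =
        ∑ z ∈ E, - q z * Real.log (r z) + ∑ z ∈ Eᶜ, - q z * Real.log (r z) :=
      (Finset.sum_add_sum_compl E _).symm
    have h4 : ∑ z ∈ E, - q z * Real.log (r z) =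
        (∑ z ∈ E, q z) * (Real.log 2 + Real.log E.card) := by
      rw [Finset.sum_mul]
      refine Finset.sum_congr rfl fun z hz => ?_
      simp only [r, hz, if_true]
      rw [one_div, Real.log_inv, Real.log_mul (by norm_num) hEc.ne']
      ring
    have h5 : ∑ z ∈ Eᶜ, - q z * Real.log (r z) =
        (∑ z ∈ Eᶜ, q z) * (Real.log 2 + Real.log (Fintype.card α)) := by
      rw [Finset.sum_mul]
      refine Finset.sum_congr rfl fun z hz => ?_
      simp only [r, Finset.mem_compl.1 hz, if_false]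
      rw [one_div, Real.log_inv, Real.log_mul (by norm_num) hα.ne']
      ring
    have h6 : ∑ z ∈ Eᶜ, q z = 1 - ∑ z ∈ E, q z := by
      have := Finset.sum_add_sum_compl E q
      linarith
    rw [h3, h4, h5, h6]; ring
  linarith

lemma dsum {L ι : Type*} [Fintype L] [Fintype ι] (f : L → ι → ℝ) (P : ι → L → Prop)
    [∀ m y, Decidable (P m y)] :
    ∑ x, ∑ y, ∑ m with P m y, f x m =
      ∑ m, (∑ x, f x m) * ((univ.filter fun y => P m y).card : ℝ) := by
  simp_rw [Finset.sum_filter]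
  rw [Finset.sum_congr rfl (fun x _ => Finset.sum_comm)]
  rw [Finset.sum_comm]
  refine Finset.sum_congr rfl fun m _ => ?_
  rw [Finset.sum_mul]
  refine Finset.sum_congr rfl fun x _ => ?_
  rw [← Finset.sum_filter, Finset.sum_const, nsmul_eq_mul, mul_comm]

lemma dsum1 {L ι : Type*} [Fintype L] [Fintype ι] (f : ι → ℝ) (P : ι → L → Prop)
    [∀ m y, Decidable (P m y)] :
    ∑ y, ∑ m with P m y, f m =
      ∑ m, f m * ((univ.filter fun y => P m y).card : ℝ) := by
  simp_rw [Finset.sum_filter]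
  rw [Finset.sum_comm]
  refine Finset.sum_congr rfl fun m _ => ?_
  rw [← Finset.sum_filter, Finset.sum_const, nsmul_eq_mul, mul_comm]

set_option maxHeartbeats 1000000 in
open Classical in
/-- (I2) The set of the elements below few weighted indices. -/
theorem eset {L ι : Type*} [Lattice L] [Fintype L] [Nonempty L] [Fintype ι]
    (w : L → ι → ℝ) (P : ι → L → Prop) (hP : ∀ m x y, P m (x ⊓ y) ↔ P m x ∧ P m y)
    (Λ κ e : ℝ) (hΛ0 : 0 < Λ) (hκ : 0 ≤ κ) (he0 : 0 ≤ e)
    (hw : ∀ x m, 0 ≤ w x m)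
    (hwΛ : ∀ x, ∑ m, w x m ≤ Λ)
    (htot : (Fintype.card L : ℝ) * (Λ - κ) ≤ ∑ x, ∑ m, w x m)
    (hM : ∀ x y, ∑ m with P m y, w x m + ∑ m with P m x, w y m ≤ Λ)
    (hU : ∀ m, (1 / 2 - e) * (Fintype.card L : ℝ) ≤ ((univ.filter fun y => P m y).card : ℝ))
    (hη : 32 * (e + κ / (2 * Λ)) ≤ 1) :
    ∃ E : Finset L, (E.card : ℝ) ≤ 48 * (e + κ / (2 * Λ)) * (Fintype.card L : ℝ) ∧
      (Fintype.card L : ℝ) ^ 2 / 4 ≤ ((univ.filter fun p : L × L => p.1 ⊓ p.2 ∈ E).card : ℝ) := by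
  obtain ⟨N, hNdef⟩ : ∃ N : ℝ, N = (Fintype.card L : ℝ) := ⟨_, rfl⟩
  rw [← hNdef] at htot hU ⊢
  have hN : 0 < N := by rw [hNdef]; exact_mod_cast Fintype.card_pos
  obtain ⟨η, hηdef⟩ : ∃ η : ℝ, η = e + κ / (2 * Λ) := ⟨_, rfl⟩
  rw [← hηdef] at hη ⊢
  have hη0 : 0 ≤ η := by rw [hηdef]; positivity
  have hηΛ : Λ * η = e * Λ + κ / 2 := by rw [hηdef]; field_simp
  have he2 : e ≤ 1 / 32 := by
    have : 0 ≤ κ / (2 * Λ) := by positivity
    rw [hηdef] at hη; linarith
  obtain ⟨T, hTdef⟩ : ∃ T : ι → ℝ, T = fun m => ∑ x, w x m := ⟨_, rfl⟩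
  obtain ⟨U, hUdef⟩ : ∃ U : ι → ℝ, U = fun m => ((univ.filter fun y => P m y).card : ℝ) := ⟨_, rfl⟩
  have hU' : ∀ m, (1 / 2 - e) * N ≤ U m := fun m => by rw [hUdef]; exact hU m
  have hT0 : ∀ m, 0 ≤ T m := fun m => by
    rw [hTdef]; exact Finset.sum_nonneg fun x _ => hw x m
  have hUN : ∀ m, U m ≤ N := fun m => by
    rw [hUdef, hNdef]
    show ((univ.filter fun y => P m y).card : ℝ) ≤ (Fintype.card L : ℝ)
    exact_mod_cast Finset.card_le_univ _
  have hS1 : ∑ m, T m = ∑ x, ∑ m, w x m := by rw [hTdef]; exact Finset.sum_comm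
  have hS1a : N * (Λ - κ) ≤ ∑ m, T m := hS1 ▸ htot
  have hS1b : ∑ m, T m ≤ N * Λ := by
    rw [hS1]
    calc ∑ x, ∑ m, w x m ≤ ∑ _x : L, Λ := Finset.sum_le_sum fun x _ => hwΛ x
      _ = N * Λ := by rw [Finset.sum_const, nsmul_eq_mul, Finset.card_univ, hNdef]
  have hA1 : ∑ x, ∑ y, ∑ m with P m y, w x m = ∑ m, T m * U m := by
    rw [hTdef, hUdef]; exact dsum w P
  have hA2 : ∑ y, ∑ x, ∑ m with P m y, w x m = ∑ m, T m * U m := by
    rw [Finset.sum_comm]; exact hA1
  obtain ⟨S, hSdef⟩ : ∃ S : L → ℝ,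
      S = fun y => ∑ x, (∑ m with P m y, w x m + ∑ m with P m x, w y m) := ⟨_, rfl⟩
  have hSle : ∀ y, S y ≤ N * Λ := fun y => by
    rw [hSdef]
    calc ∑ x, (∑ m with P m y, w x m + ∑ m with P m x, w y m) ≤ ∑ _x : L, Λ :=
          Finset.sum_le_sum fun x _ => hM x y
      _ = N * Λ := by rw [Finset.sum_const, nsmul_eq_mul, Finset.card_univ, hNdef]
  have hSsum : ∑ y, S y = 2 * ∑ m, T m * U m := by
    rw [hSdef]
    simp only [Finset.sum_add_distrib]
    rw [hA2, hA1]; ring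
  have hS2 : 2 * ∑ m, T m * U m ≤ N * (N * Λ) := by
    rw [← hSsum]
    calc ∑ y, S y ≤ ∑ _y : L, N * Λ := Finset.sum_le_sum fun y _ => hSle y
      _ = N * (N * Λ) := by rw [Finset.sum_const, nsmul_eq_mul, Finset.card_univ, hNdef]
  obtain ⟨c, hcdef⟩ : ∃ c : ℝ, c = (1 / 2 - e) * N := ⟨_, rfl⟩
  have hc0 : 0 ≤ c := by rw [hcdef]; exact mul_nonneg (by linarith) hN.le
  have hcN : c ≤ N / 2 := by
    rw [hcdef]; nlinarith
  have hcU : ∀ m, c ≤ U m := fun m => by rw [hcdef]; exact hU' m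
  have hcT : c * (N * (Λ - κ)) ≤ c * ∑ m, T m := mul_le_mul_of_nonneg_left hS1a hc0
  have hc1 : N * N * (Λ / 2 - Λ * η) ≤ c * (N * (Λ - κ)) := by
    rw [hcdef, hηΛ]
    have : 0 ≤ e * κ := mul_nonneg he0 hκ
    nlinarith [mul_pos hN hN, mul_nonneg (mul_nonneg hN.le hN.le) this]
  have hBT : ∑ m, T m * (U m - c) = ∑ m, T m * U m - c * ∑ m, T m := by
    rw [Finset.mul_sum, ← Finset.sum_sub_distrib]
    exact Finset.sum_congr rfl fun m _ => by ring
  have hS3 : ∑ m, T m * (U m - c) ≤ N * N * (Λ * η) := by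
    rw [hBT]; nlinarith
  have hS4 : N * N * (Λ - 2 * (Λ * η)) ≤ 2 * ∑ m, T m * U m := by
    have h1 : c * ∑ m, T m ≤ ∑ m, T m * U m := by
      rw [Finset.mul_sum]
      refine Finset.sum_le_sum fun m _ => ?_
      rw [mul_comm]
      exact mul_le_mul_of_nonneg_left (hcU m) (hT0 m)
    nlinarith
  obtain ⟨R, hRdef⟩ : ∃ R : L → ℝ, R = fun y => ∑ m with P m y, T m := ⟨_, rfl⟩
  obtain ⟨B, hBdef⟩ : ∃ B : L → ℝ, B = fun y => ∑ m, w y m * (U m - c) := ⟨_, rfl⟩
  have hB0 : ∀ y, 0 ≤ B y := fun y => by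
    rw [hBdef]
    exact Finset.sum_nonneg fun m _ => mul_nonneg (hw y m) (by have := hcU m; linarith)
  have hBsum : ∑ y, B y = ∑ m, T m * (U m - c) := by
    rw [hBdef, hTdef]
    rw [Finset.sum_comm]
    refine Finset.sum_congr rfl fun m _ => ?_
    rw [← Finset.sum_mul]
  have hSR : ∀ y, S y ≤ R y + B y + N * Λ / 2 := fun y => by
    have h1 : ∑ x, ∑ m with P m y, w x m = R y := by
      rw [Finset.sum_comm, hRdef, hTdef]
    have h2 : ∑ x, ∑ m with P m x, w y m = ∑ m, w y m * U m := by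
      rw [hUdef]; exact dsum1 (fun m => w y m) P
    have h3 : ∑ m, w y m * U m = B y + c * ∑ m, w y m := by
      rw [hBdef, Finset.mul_sum, ← Finset.sum_add_distrib]
      exact Finset.sum_congr rfl fun m _ => by ring
    have h0 : 0 ≤ ∑ m, w y m := Finset.sum_nonneg fun m _ => hw y m
    have h4 : c * ∑ m, w y m ≤ N / 2 * Λ :=
      mul_le_mul hcN (hwΛ y) h0 (by positivity)
    rw [hSdef]
    simp only [Finset.sum_add_distrib]
    rw [h1, h2, h3]
    linarith
  obtain ⟨E, hEdef⟩ : ∃ E : Finset L, E = univ.filter fun y => R y ≤ 3 / 8 * (N * Λ) := ⟨_, rfl⟩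
  have hEmem : ∀ y, y ∈ E ↔ R y ≤ 3 / 8 * (N * Λ) := fun y => by rw [hEdef]; simp
  have hR0 : ∀ y, 0 ≤ R y := fun y => by
    rw [hRdef]; exact Finset.sum_nonneg fun m _ => hT0 m
  refine ⟨E, ?_, ?_⟩
  · have h1 : (E.card : ℝ) * (N * Λ / 8) ≤ ∑ y ∈ E, (N * Λ - S y + B y) := by
      rw [← nsmul_eq_mul, ← Finset.sum_const]
      refine Finset.sum_le_sum fun y hy => ?_
      have h2 := hSR y
      have h3 : R y ≤ 3 / 8 * (N * Λ) := (hEmem y).1 hy
      linarith
    have h2 : ∑ y ∈ E, (N * Λ - S y + B y) ≤ ∑ y, (N * Λ - S y + B y) := by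
      refine Finset.sum_le_sum_of_subset_of_nonneg (Finset.subset_univ _) fun y _ _ => ?_
      have := hSle y
      have := hB0 y
      linarith
    have h3 : ∑ y, (N * Λ - S y + B y) = N * (N * Λ) - ∑ y, S y + ∑ y, B y := by
      rw [Finset.sum_add_distrib, Finset.sum_sub_distrib, Finset.sum_const, nsmul_eq_mul,
        Finset.card_univ, hNdef]
    rw [h3, hSsum, hBsum] at h2
    have h4 : (E.card : ℝ) * (N * Λ / 8) ≤ (24 * η * N) * (N * Λ / 8) := by nlinarith
    have h5 := le_of_mul_le_mul_right h4 (by positivity)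
    have h6 : 0 ≤ η * N := by positivity
    linarith
  · have hRmeet : ∑ p : L × L, R (p.1 ⊓ p.2) ≤ N * N * N * Λ / 4 + N * (N * N * (Λ * η)) := by
      have h1 : ∑ p : L × L, R (p.1 ⊓ p.2) = ∑ m, T m * (U m * U m) := by
        rw [hRdef]
        have h0 := dsum1 (L := L × L) T (fun m p => P m (p.1 ⊓ p.2))
        rw [h0]
        refine Finset.sum_congr rfl fun m _ => ?_
        congr 1
        have h2 : (univ.filter fun p : L × L => P m (p.1 ⊓ p.2)) =
            (univ.filter fun y => P m y) ×ˢ (univ.filter fun y => P m y) := by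
          ext p
          simp [Finset.mem_product, hP]
        rw [h2, Finset.card_product, hUdef]
        push_cast
        rfl
      have h2 : ∑ m, T m * (U m * U m) ≤
          ∑ m, (N * (T m * (U m - c)) + N / 2 * (T m * U m)) := by
        refine Finset.sum_le_sum fun m _ => ?_
        have h3 := hT0 m
        have h4 := hUN m
        have h5 := hcU m
        have h7 : 0 ≤ U m := hc0.trans h5
        have h6 : U m * U m ≤ N * (U m - c) + N / 2 * U m := by nlinarith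
        nlinarith [mul_le_mul_of_nonneg_left h6 h3]
      rw [Finset.sum_add_distrib, ← Finset.mul_sum, ← Finset.mul_sum] at h2
      have h7 : N * ∑ m, T m * (U m - c) ≤ N * (N * N * (Λ * η)) :=
        mul_le_mul_of_nonneg_left hS3 hN.le
      rw [h1]
      nlinarith
    obtain ⟨G, hGdef⟩ : ∃ G : Finset (L × L), G = univ.filter fun p => p.1 ⊓ p.2 ∈ E := ⟨_, rfl⟩
    rw [← hGdef]
    have h1 : ((Gᶜ).card : ℝ) * (3 / 8 * (N * Λ)) ≤ ∑ p ∈ Gᶜ, R (p.1 ⊓ p.2) := by
      rw [← nsmul_eq_mul, ← Finset.sum_const]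
      refine Finset.sum_le_sum fun p hp => ?_
      have h2 : ¬ (R (p.1 ⊓ p.2) ≤ 3 / 8 * (N * Λ)) := by
        intro h3
        refine Finset.mem_compl.1 hp ?_
        rw [hGdef]
        simp [(hEmem (p.1 ⊓ p.2)).2 h3]
      exact (not_le.1 h2).le
    have h2 : ∑ p ∈ Gᶜ, R (p.1 ⊓ p.2) ≤ ∑ p : L × L, R (p.1 ⊓ p.2) :=
      Finset.sum_le_sum_of_subset_of_nonneg (Finset.subset_univ _) fun p _ _ => hR0 _
    have h3 : ((Gᶜ).card : ℝ) = N * N - G.card := by
      have h4 := Finset.card_add_card_compl G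
      rw [Fintype.card_prod] at h4
      have h6 : (G.card : ℝ) + (Gᶜ).card = N * N := by rw [hNdef]; exact_mod_cast h4
      linarith
    rw [h3] at h1
    have h4 : (N * N - G.card) * (3 / 8 * (N * Λ)) ≤
        N * N * N * Λ / 4 + N * (N * N * (Λ * η)) := h1.trans (h2.trans hRmeet)
    have h5 : N * (N * N * (Λ * η)) ≤ N * (N * N * (Λ * (1 / 32))) := by
      have : η ≤ 1 / 32 := by linarith
      gcongr
    have h6 : (N * N - G.card) * (3 / 8 * (N * Λ)) ≤ (3 / 4 * (N * N)) * (3 / 8 * (N * Λ)) := by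
      nlinarith
    have h7 := le_of_mul_le_mul_right h6 (by positivity)
    nlinarith

end Pool.Agent.H77.VC
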